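import Pool.Agent.H18.PN.Stgt

/-!
# The jets of the chain over the labels of an early window

`stp_F1`: from the labels of `x` to the labels of `y`, nested digits `A l` behind the natural ones of
`w`. `cvt_F1`: along a sequence of windows from `b` to `w`, no loss. `cvt_cond`: a quantity which is
few bits given the jets over the labels of `w` is few bits given the jets over the labels of `b`.
-/

set_option autoImplicit false

namespace Pool.FA6

open Finset Real MvPolynomial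
open Pool.Agent.H49.Ent Pool.Agent.H32.Dense Pool.STK Pool.KA Pool.KSAT Pool.K2S Pool.PB Pool.GEN
open Pool.S6C Pool.RCD Pool.LA91 Pool.OWN68 Pool.AJW Pool.PN18

variable {m : ℕ} {S : PCl m} {C₀ : ℝ} {c : ℕ → Fin m} {r : ℕ}

/-- Digits `A l` behind the natural ones of `w`. -/
noncomputable def dgA (sn : ℕ → ℝ → ℝ) (w : ℝ) (A : ℕ → ℝ) (l j : ℕ) : ℝ := sn l w + A l - (j : ℝ) * w

/-- **One step**: from the labels of `x` to the labels of `y`. -/
theorem stp_F1 (htm : TmC S C₀) {sn : ℕ → ℝ → ℝ} {x y w u₁ μ φ ψ σ : ℝ} {rd pv pt Av At A : ℕ → ℝ}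
    (hch : Chn S c 0 r y y u₁ (fun i => sn i y) rd) (hxy : x ≤ y) (hyw : y ≤ w) (hμ : 0 ≤ μ)
    (hφ : 0 ≤ φ) (hψ : 0 ≤ ψ) (hσ : 0 < σ)
    (hlin : ∀ l < r, |sn l y - sn l w - (y - w)| ≤ φ)
    (hpv : ∀ l < r, sn l y - μ - ψ ≤ pv l) (hpt : ∀ l < r, sn l y - μ - ψ ≤ pt l)
    (hA0 : ∀ l < r, φ + 2 * σ ≤ A l) (hAv : ∀ l < r, A l ≤ Av l) (hAt : ∀ l < r, At l ≤ A l)
    (hAA : ∀ l < r, ∀ l' < l, A l + (μ + ψ + 2 * φ + 2 * σ) ≤ A l')
    (hΛ : ∀ l < r, A l + w + (μ + ψ + 2 * φ + 2 * σ) ≤ 1) {h : ℝ} (hh : 0 < h) :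
    F1 S (fun J F => ptr F J) (vg y) (fun _ F => F.T)
      (qJets m c 0 r 1 (fun _ _ => x) (fun l _ => pv l) (dgA sn w Av))
      (qJets m c 0 r 1 (fun _ _ => y) (fun l _ => pt l) (dgA sn w At)) (σ / 8) h := by
  have h1 : (0 : ℝ) < ((r * (1 + 1) : ℕ) : ℝ) + 1 := by positivity
  obtain ⟨Λ, hΛe⟩ : ∃ Λ : ℝ, Λ = 1 - y := ⟨_, rfl⟩
  have hΛ1 : y + Λ ≤ 1 := by linarith
  have hΛ0 : 0 < Λ := by linarith [hch.u0]
  have hΛ : ∀ l < r, A l + (w - y) + (μ + ψ + 2 * φ + 2 * σ) ≤ Λ := fun l hl => by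
    linarith [hΛ l hl]
  have hmin : min Λ (y + Λ - y) = Λ := by rw [add_sub_cancel_left, min_self]
  have key : ∀ η : ℝ, 0 < η → ∀ l, l < r → ∀ j ≤ 1, F1 S (fun J F => ptr F J) (vg y)
      (fun _ F => F.T) (qJets m c 0 r 1 (fun _ _ => x) (fun l _ => pv l) (dgA sn w Av))
      (qJet m ((range l).image c) (c l) j y (pt l) (dgA sn w At l j)) (σ / 8) η := by
    intro η hη l hl j hj
    have hj01 : j = 0 ∨ j = 1 := by omega
    obtain ⟨lv, hlv⟩ : ∃ lv : ℕ → ℝ, lv = fun l => if j = 0 then A l + (sn l w - sn l y) - σ else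
      A l - φ - σ := ⟨_, rfl⟩
    have hl2 : ∀ i < r, A i + (w - y) - φ ≤ A i + (sn i w - sn i y) ∧
        A i + (sn i w - sn i y) ≤ A i + (w - y) + φ := fun i hi => by
      have := abs_le.1 (hlin i hi)
      exact ⟨by linarith [this.2], by linarith [this.1]⟩
    have hmv : ∀ i < r, sn i y - μ - ψ ≤ min (pv i) (sn i y) := fun i hi =>
      le_min (hpv i hi) (by linarith)
    have hmt : sn l y - μ - ψ ≤ min (pv l) (pt l) := le_min (hpv l hl) (hpt l hl)
    have k1 := jetN_F1 (S := S) (C₀ := C₀) (y := fun (J : ℕ) (F : Fam m J) => F.T)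
      (f := fun J F => ptr F J) htm (hch.take (Nat.zero_le _) hl.le) (k := c l)
      (j := j) (lv := lv) (p₀ := y + Λ) (lam := Λ) (σ₀ := σ) (w₁ := x) (w₂ := y)
      (p₁ := pv l) (p₂ := pt l) (N₁ := dgA sn w Av l j) (N₂ := dgA sn w At l j)
      (wv := fun _ _ => x) (pv := fun l _ => pv l) (Nv := dgA sn w Av)
      (fun _ _ _ _ _ => hxy) hxy le_rfl (by linarith) hΛ1 hΛ0 hσ
      ?_ ?_ ?_ ?_ ?_ ?_ ?_ ptr_id (kn_T c _ _) hη
    · refine F1.pull htm (Q₁ := (qJets m c 0 l j (fun _ _ => x) (fun l _ => pv l)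
          (dgA sn w Av)).prod (qJet m ((range l).image c) (c l) j x (pv l) (dgA sn w Av l j)))
        (fun u => ((fun i' j' => if i' < l ∧ j' ≤ j then u i' j' else 0), u l j)) ?_ k1
      intro K e J F A u hu
      refine ⟨⟨fun i' a b' j' c' => ?_, fun ω hω i' j' h' => ?_⟩, ?_⟩
      · have e1 := hu.1 i' a (b'.trans hl) j' (c'.trans hj)
        show (qJet m _ _ _ _ _ _).P K e J F A (fun ω => if i' < l ∧ j' ≤ j then u ω i' j' else 0)
        simp only [if_pos (show i' < l ∧ j' ≤ j from ⟨b', c'⟩)]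
        exact e1
      · show (if i' < l ∧ j' ≤ j then u ω i' j' else 0) = 0
        split_ifs with h3
        · exact hu.2 ω hω i' j' fun h4 => h' ⟨h4.1, h3.1, h3.2⟩
        · rfl
      · exact hu.1 l (Nat.zero_le _) hl j hj
    · -- lv positive
      intro i _ hi
      have hir : i < r := hi.trans hl
      have g1 := hA0 i hir
      have g2 := (hl2 i hir).1
      rw [hlv]
      dsimp only
      split_ifs
      · linarith
      · linarith
    · intro i _ hi j' hj'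
      have hir : i < r := hi.trans hl
      have g1 := hA0 i hir
      have g2 := hl2 i hir
      have g3 := hAv i hir
      rw [hlv]
      show sn i y + (if j = 0 then A i + (sn i w - sn i y) - σ else A i - φ - σ) + σ ≤
        sn i w + Av i - (j' : ℝ) * w + (j' : ℝ) * y
      rcases hj01 with h0 | h0
      · subst h0
        have e0 : j' = 0 := by omega
        rw [e0, if_pos rfl]
        push_cast
        linarith
      · rw [if_neg (by omega)]
        have e1 : j' = 0 ∨ j' = 1 := by omega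
        rcases e1 with e1 | e1
        · rw [e1]
          push_cast
          linarith [g2.1]
        · rw [e1]
          push_cast
          linarith [g2.1]
    · intro i _ hi j' hj'
      have hir : i < r := hi.trans hl
      have g2 := hl2 i hir
      have g4 := hmv i hir
      have g5 := hΛ i hir
      rw [hlv, hmin]
      show sn i y + (if j = 0 then A i + (sn i w - sn i y) - σ else A i - φ - σ) + σ ≤
        min (pv i) (sn i y) + Λ
      split_ifs
      · linarith [g2.2]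
      · linarith
    · intro i _ hi j' hj' l' _ hl'
      have hir : i < r := hi.trans hl
      have hlr : l' < r := hl'.trans hir
      have g2 := hl2 i hir
      have g2' := hl2 l' hlr
      have g4 := hmv i hir
      have g5 := hAA i hir l' hl'
      rw [hlv]
      show sn i y + (if j = 0 then A i + (sn i w - sn i y) - σ else A i - φ - σ) + σ ≤
        min (pv i) (sn i y) + (if j = 0 then A l' + (sn l' w - sn l' y) - σ else A l' - φ - σ)
      split_ifs
      · linarith [g2.2, g2'.1]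
      · linarith
    · -- fewer digits
      have g1 := hAt l hl
      have g2 := hAv l hl
      show sn l w + At l - (j : ℝ) * w ≤ sn l w + Av l - (j : ℝ) * w
      linarith
    · have g1 := hAt l hl
      have g2 := hl2 l hl
      have g5 := hΛ l hl
      rw [hmin]
      show sn l w + At l - (j : ℝ) * w + (j : ℝ) * y + σ ≤ min (pv l) (pt l) + Λ
      rcases hj01 with h0 | h0
      · rw [h0]
        push_cast
        linarith [g2.2]
      · rw [h0]
        push_cast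
        linarith [g2.2]
    · intro l' _ hl'
      have hlr : l' < r := hl'.trans hl
      have g1 := hAt l hl
      have g2 := hl2 l hl
      have g2' := hl2 l' hlr
      have g5 := hAA l hl l' hl'
      rw [hlv]
      show sn l w + At l - (j : ℝ) * w + (j : ℝ) * y + σ ≤ min (pv l) (pt l) +
        (if j = 0 then A l' + (sn l' w - sn l' y) - σ else A l' - φ - σ)
      rcases hj01 with h0 | h0
      · rw [h0, if_pos rfl]
        push_cast
        linarith [g2.2, g2'.1]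
      · rw [h0, if_neg (by omega)]
        push_cast
        linarith [g2.2]
  have h2 := F1.qjets htm (Q := qJets m c 0 r 1 (fun _ _ => x) (fun l _ => pv l) (dgA sn w Av))
    (c := c) (r₀ := 0) (r := r) (j := 1)
    (w := fun _ _ => y) (p := fun l _ => pt l) (N := dgA sn w At)
    (η := h / (((r * (1 + 1) : ℕ) : ℝ) + 1)) (by positivity)
    (fun i _ y' j' hj' => key _ (by positivity) i y' j' hj')
  refine h2.mono le_rfl ?_
  rw [mul_div_assoc', div_le_iff₀ h1]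
  nlinarith

/-- **Along a sequence of windows.** -/
theorem cvt_F1 (htm : TmC S C₀) {sn : ℕ → ℝ → ℝ} {w μ φ ψ σ T : ℝ} {pv A : ℕ → ℝ} {v : ℕ → ℝ}
    {n : ℕ} (hw1 : w ≤ 1)
    (hch : ∀ i ≤ n, ∃ (u₁ : ℝ) (rd : ℕ → ℝ), (∀ l < r, 0 ≤ rd l) ∧
      Chn S c 0 r (v i) (v i) u₁ (fun l => sn l (v i)) rd)
    (hst : ∀ i < n, v i ≤ v (i + 1)) (hvw : ∀ i ≤ n, v i ≤ w) (hμ : 0 ≤ μ) (hφ : 0 ≤ φ) (hψ : 0 ≤ ψ)
    (hσ : 0 < σ) (hlin : ∀ i ≤ n, ∀ l < r, |sn l (v i) - sn l w - (v i - w)| ≤ φ)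
    (hsp : ∀ i < n, ∀ l < r, sn l (v (i + 1)) - μ - ψ ≤ sn l (v i))
    (hpv : ∀ l < r, sn l (v 0) - μ - ψ ≤ pv l)
    (hA0 : ∀ l < r, φ + 2 * σ ≤ A l) (hAv : ∀ l < r, A l ≤ T)
    (hAA : ∀ l < r, ∀ l' < l, A l + (μ + ψ + 2 * φ + 2 * σ) ≤ A l')
    (hΛ : ∀ l < r, A l + w + (μ + ψ + 2 * φ + 2 * σ) ≤ 1) :
    ∀ k ≤ n, ∀ h : ℝ, 0 < h → F1 S (fun J F => ptr F J) (vg w) (fun _ F => F.T)
      (qJets m c 0 r 1 (fun _ _ => v 0) (fun l _ => pv l) (dgA sn w (fun _ => T)))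
      (qJets m c 0 r 1 (fun _ _ => v k) (fun l _ => sn l (v k)) (dgA sn w A)) (σ / 8) h := by
  intro k
  induction k with
  | zero =>
    intro _ h hh
    obtain ⟨u₁, rd, -, hc⟩ := hch 0 (Nat.zero_le _)
    exact (stp_F1 htm (A := A) hc le_rfl (hvw 0 (Nat.zero_le _)) hμ hφ hψ hσ
      (hlin 0 (Nat.zero_le _)) hpv (fun l _ => by linarith) hA0 hAv (fun _ _ => le_rfl) hAA
      hΛ hh).up (hvw 0 (Nat.zero_le _)) hw1
  | succ k ih =>
    intro hk h hh
    have h1 := ih (by omega) (h / 2) (half_pos hh)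
    obtain ⟨u₀, rd₀, hrd₀, hc₀⟩ := hch k (by omega)
    obtain ⟨u₁, rd, -, hc⟩ := hch (k + 1) hk
    have h2 := (stp_F1 htm (A := A) (pv := fun l => sn l (v k))
      (pt := fun l => sn l (v (k + 1))) (Av := A) (At := A) hc (hst k (by omega)) (hvw _ hk) hμ hφ
      hψ hσ (hlin _ hk) (hsp k (by omega)) (fun l _ => by linarith) hA0 (fun _ _ => le_rfl)
      (fun _ _ => le_rfl) hAA hΛ (half_pos hh)).up (hvw _ hk) hw1
    have hex : Exs S (qJets m c 0 r 1 (fun _ _ => v k) (fun l _ => sn l (v k)) (dgA sn w A)) :=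
      exs_qjets fun i _ y j' _ => exs_jet (hrd₀ i y) (hc₀.att i (Nat.zero_le _) y)
    have h3 := F1.trans htm hex (by linarith) h1 h2
    exact h3.mono le_rfl (by linarith)

/-- **From the labels of** `w` **to the labels of** `b`, in the condition. -/
theorem cvt_cond (htm : TmC S C₀) {sn : ℕ → ℝ → ℝ} {w μ φ ψ σ T kf : ℝ} {pv A : ℕ → ℝ} {v : ℕ → ℝ}
    {n : ℕ} (hw1 : w ≤ 1)
    (hch : ∀ i ≤ n, ∃ (u₁ : ℝ) (rd : ℕ → ℝ), (∀ l < r, 0 ≤ rd l) ∧
      Chn S c 0 r (v i) (v i) u₁ (fun l => sn l (v i)) rd)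
    (hst : ∀ i < n, v i ≤ v (i + 1)) (hvw : ∀ i ≤ n, v i ≤ w) (hvn : v n = w) (hμ : 0 ≤ μ)
    (hφ : 0 ≤ φ) (hψ : 0 ≤ ψ) (hσ : 0 < σ)
    (hlin : ∀ i ≤ n, ∀ l < r, |sn l (v i) - sn l w - (v i - w)| ≤ φ)
    (hsp : ∀ i < n, ∀ l < r, sn l (v (i + 1)) - μ - ψ ≤ sn l (v i))
    (hpv : ∀ l < r, sn l (v 0) - μ - ψ ≤ pv l)
    (hA0 : ∀ l < r, φ + 2 * σ ≤ A l) (hAv : ∀ l < r, A l ≤ T) (hAk : ∀ l < r, kf ≤ A l)
    (hAA : ∀ l < r, ∀ l' < l, A l + (μ + ψ + 2 * φ + 2 * σ) ≤ A l')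
    (hΛ : ∀ l < r, A l + w + (μ + ψ + 2 * φ + 2 * σ) ≤ 1)
    {U : Type} {Q' : Qt m U} {e η h : ℝ} (he : 0 < e) (heσ : e ≤ σ / 8) (hh : 0 < h)
    (H : F1 S (fun J F => ptr F J) (vg w) (fun _ F => F.T)
      (qJets m c 0 r 1 (fun _ _ => w) (fun l _ => sn l w) (dgA sn w (fun _ => kf))) Q' e η) :
    F1 S (fun J F => ptr F J) (vg w) (fun _ F => F.W)
      (qJets m c 0 r 1 (fun _ _ => v 0) (fun l _ => pv l) (dgA sn w (fun _ => T))) Q' e (η + h) := by
  have h1 := cvt_F1 htm hw1 hch hst hvw hμ hφ hψ hσ hlin hsp hpv hA0 hAv hAA hΛ n le_rfl (h / 2)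
    (half_pos hh)
  obtain ⟨u₁, rd, hrd, hc⟩ := hch n le_rfl
  rw [hvn] at h1 hc
  have h2 := stp_F1 htm (pv := fun l => sn l w) (pt := fun l => sn l w) (Av := A)
    (At := fun _ => kf) (A := A) hc le_rfl le_rfl hμ hφ hψ hσ (fun l hl => by
      have := hlin n le_rfl l hl
      rwa [hvn] at this) (fun l _ => by linarith) (fun l _ => by linarith) hA0
    (fun _ _ => le_rfl) hAk hAA hΛ (half_pos hh)
  have hex : ∀ D : ℕ → ℕ → ℝ, Exs S (qJets m c 0 r 1 (fun _ _ => w) (fun l _ => sn l w) D) :=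
    fun D => exs_qjets fun i _ y j' _ => exs_jet (hrd i y) (hc.att i (Nat.zero_le _) y)
  have h3 := F1.trans htm (hex _) he (F1.trans htm (hex _) he (h1.mono heσ le_rfl)
    (h2.mono heσ le_rfl)) H
  intro K
  refine Bas.mono 0 ((h3 K).and (Pool.GRW.tmc_bas htm one_pos)) ?_
  rintro J - F A₁ ⟨h4, hA₁, -⟩ u u' hu hu'
  obtain ⟨V, z, hz, h5⟩ := h4 u u' hu hu'
  refine ⟨V, z, hz, (CH_mono_cond (isLaw_cond F.isLaw hA₁).nonneg fun ω ω' _ _ hh' => ?_).trans
    (h5.trans (mul_le_mul_of_nonneg_right (by linarith) (Nat.cast_nonneg J)))⟩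
  simp only [Prod.mk.injEq] at hh' ⊢
  exact ⟨hh'.1, hh'.2.1, (Prod.ext_iff.mp hh'.2.2).1⟩

end Pool.FA6
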