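import Pool.Agent.H6.FA.Cvt
import Pool.Agent.H83.VA.T2

/-!
# Far-dead over the labels of an early window

`farA_lad`: `FarA` from the far-dead jets given the jets of the slope-one places over the labels of
the window `w` itself. `FarA.sub`: subclasses.
-/

set_option autoImplicit false

namespace Pool.FA6

open Finset Real MvPolynomial
open Pool.Agent.H49.Ent Pool.Agent.H32.Dense Pool.STK Pool.KA Pool.KSAT Pool.K2S Pool.PB Pool.GEN
open Pool.S6C Pool.RCD Pool.LA91 Pool.OWN68 Pool.AJW Pool.PN18 Pool.V0R Pool.VA83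
open Pool.AVG96 (jetQ)

variable {m : ℕ} {S : PCl m} {c : ℕ → Fin m} {k : ℕ} {sn : ℕ → ℝ → ℝ} {G : Set ℝ} {b o φ : ℝ}

/-- **From the labels of** `w` **to the labels of the first window** of a ladder, in the condition. -/
theorem lad_cond {f : ℕ} (L : LadR S c k f sn G b o φ) {w : ℝ} (hwG : w ∈ G) (hbw : b ≤ w)
    (hwo : w ≤ o) {T kf : ℝ} (hT : kf + 11 * (k + 1) * φ ≤ T) (hkf : 4 * φ ≤ kf)
    (hw1 : w + T ≤ 1) {pv : ℕ → ℝ} (hpv : ∀ l < k, sn l b - 5 * φ ≤ pv l)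
    {U : Type} {Q' : Qt m U} {e η h : ℝ} (he : 0 < e) (heσ : e ≤ φ / 8) (hh : 0 < h)
    (H : F1 S (fun J F => ptr F J) (vg w) (fun _ F => F.T)
      (qJets m c 0 k 1 (fun _ _ => w) (fun l _ => sn l w)
        (fun l j => sn l w + kf - (j : ℝ) * w)) Q' e η) :
    F1 S (fun J F => ptr F J) (vg w) (fun _ F => F.W)
      (jetQ m c 0 k b pv (fun l j => sn l w + T - (j : ℝ) * w)) Q' e (η + h) := by
  obtain ⟨C₀, htm⟩ := L.tm
  obtain ⟨φ', hφ', hφφ, hgap, -⟩ := L.fm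
  have hφ := L.φ0
  obtain ⟨N, z, z0, zN, hz, hzs⟩ := gseq (G := G) (w := b) (h := 3 * φ) (ρ₀ := φ') L.bG
    (by linarith) ⌈(w - b) / (3 * φ - 2 * φ')⌉₊ w hwG hbw (by
      have h1 : 0 < 3 * φ - 2 * φ' := by linarith
      have h2 := Nat.le_ceil ((w - b) / (3 * φ - 2 * φ'))
      rwa [div_le_iff₀ h1] at h2) (fun v h1 h2 => hgap v h1 (h2.trans hwo))
  obtain ⟨v, hv⟩ : ∃ v : ℕ → ℝ, v = fun i => z (N - i) := ⟨_, rfl⟩
  have v0 : v 0 = b := by rw [hv]; exact zN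
  have vn : v N = w := by
    rw [hv]
    dsimp only
    rw [Nat.sub_self]
    exact z0
  have hvG : ∀ i ≤ N, v i ∈ G ∧ b ≤ v i ∧ v i ≤ w := fun i _ => by
    rw [hv]
    exact hz _ (Nat.sub_le _ _)
  have hvs : ∀ i < N, v i ≤ v (i + 1) ∧ v (i + 1) ≤ v i + 3 * φ := fun i hi => by
    have h1 := hzs (N - (i + 1)) (by omega)
    rw [show N - (i + 1) + 1 = N - i by omega] at h1
    rw [hv]
    exact h1
  have hlin : ∀ i ≤ N, ∀ l < k, |sn l (v i) - sn l w - (v i - w)| ≤ 2 * φ := fun i hi l hl => by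
    obtain ⟨h1, h2, h3⟩ := hvG i hi
    have h4 := abs_le.1 (L.fl l hl (v i) h1 h2 (h3.trans hwo))
    have h5 := abs_le.1 (L.fl l hl w hwG hbw hwo)
    rw [abs_le]
    constructor <;> linarith [h4.1, h4.2, h5.1, h5.2]
  obtain ⟨A, hA⟩ : ∃ A : ℕ → ℝ, A = fun l : ℕ => T - 11 * ((l : ℝ) + 1) * φ := ⟨_, rfl⟩
  have hk0 : (0 : ℝ) ≤ k := Nat.cast_nonneg _
  have hAk : ∀ l < k, kf ≤ A l := fun l hl => by
    have h1 : (l : ℝ) + 1 ≤ k := by exact_mod_cast hl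
    have h2 : 11 * ((l : ℝ) + 1) * φ ≤ 11 * (k + 1) * φ :=
      mul_le_mul_of_nonneg_right (by linarith) hφ.le
    rw [hA]
    dsimp only
    linarith
  have hAT : ∀ l < k, A l + 11 * φ ≤ T := fun l _ => by
    have h0 : (0 : ℝ) ≤ (l : ℝ) * φ := mul_nonneg (Nat.cast_nonneg _) hφ.le
    rw [hA]
    dsimp only
    nlinarith
  have key := cvt_cond (S := S) (C₀ := C₀) (c := c) (r := k) htm (sn := sn) (w := w) (μ := 3 * φ)
    (φ := 2 * φ) (ψ := 2 * φ) (σ := φ) (T := T) (kf := kf) (pv := pv) (A := A) (v := v) (n := N)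
    (hwo.trans L.o1.le) (fun i hi => ?_) (fun i hi => (hvs i hi).1) (fun i hi => (hvG i hi).2.2) vn
    (by linarith) (by linarith) (by linarith) hφ hlin ?_ ?_ ?_ ?_ hAk ?_ ?_ (U := U) (Q' := Q')
    (e := e) (η := η) (h := h) he heσ hh H
  · rw [v0] at key
    exact key
  · obtain ⟨u₁, rd, h1, h2⟩ := L.ch.ch (v i) (hvG i hi).1
    exact ⟨u₁, rd, fun l hl => h1 l (by omega), h2.take (Nat.zero_le _) (Nat.le_add_right _ _)⟩
  · intro i hi l hl
    have h1 := (hvs i hi).2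
    obtain ⟨g1, g2, g3⟩ := hvG i hi.le
    obtain ⟨g4, g5, g6⟩ := hvG (i + 1) hi
    have h4 := abs_le.1 (L.fl l hl (v i) g1 g2 (g3.trans hwo))
    have h5 := abs_le.1 (L.fl l hl (v (i + 1)) g4 g5 (g6.trans hwo))
    linarith [h4.1, h4.2, h5.1, h5.2]
  · intro l hl
    rw [v0]
    linarith [hpv l hl]
  · intro l hl
    have := hAk l hl
    linarith
  · intro l hl
    have := hAT l hl
    linarith
  · intro l hl l' hl'
    have h1 : (l' : ℝ) + 1 ≤ l := by exact_mod_cast hl'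
    have h2 : 11 * ((l' : ℝ) + 1) * φ ≤ 11 * l * φ :=
      mul_le_mul_of_nonneg_right (by linarith) hφ.le
    rw [hA]
    dsimp only
    have e1 : 11 * ((l : ℝ) + 1) * φ = 11 * l * φ + 11 * φ := by ring
    linarith
  · intro l hl
    have := hAT l hl
    linarith

/-- **Far-dead over the labels of the first window of a ladder.** -/
theorem farA_lad {f : ℕ} (L : LadR S c k f sn G b o φ) {w u : ℝ} (hu : 0 < u) (hwG : w ∈ G)
    (hbw : b ≤ w) (hwo : w ≤ o) {T kf C dd δ : ℝ} {K τ : ℕ}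
    (hT : kf * u + 11 * (k + 1) * φ ≤ T * u) (hkf : 4 * φ ≤ kf * u) (hw1 : w + T * u ≤ 1)
    (hdd : dd < δ)
    (H : ∃ e : ℝ, 0 < e ∧ ∀ j : ℕ, 1 ≤ j → j ≤ K →
      F1 S (fun J F => ptr F J) (vg w) (fun _ F => F.T)
        (qJets m c 0 k 1 (fun _ _ => w) (fun l _ => sn l w)
          (fun l j => sn l w + kf * u - (j : ℝ) * w))
        (qJet m ((range k).image c) (c k) j w (sn k w) (sn k w - j * w + C * u)) e (dd * u) ∧
      F1 S (fun J F => ptr F J) (vg w) (fun _ F => F.T)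
        (qJets m c 0 k 1 (fun _ _ => w) (fun l _ => sn l w)
          (fun l j => sn l w + kf * u - (j : ℝ) * w))
        (qJet m ((range (k + 1)).image c) (c (k + 1)) j (w - τ * u) (sn (k + 1) (w - τ * u))
          (sn (k + 1) w - j * w + C * u)) e (dd * u)) :
    FarA S c k K sn τ b w u T C φ δ := by
  obtain ⟨e₀, he₀, H⟩ := H
  have hφ := L.φ0
  refine ⟨min e₀ (φ / 8), lt_min he₀ (by linarith), fun e he hee j hj1 hjK => ?_⟩
  obtain ⟨H1, H2⟩ := H j hj1 hjK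
  have hee1 := hee.trans (min_le_left _ _)
  have hee2 := hee.trans (min_le_right _ _)
  have hpos : 0 < (δ - dd) * u := mul_pos (by linarith) hu
  have e1 : ∀ x : ℝ, x - (j : ℝ) * w + C * u = x + C * u - (j : ℝ) * w := fun x => by ring
  rw [e1] at H1 H2
  have e2 : dd * u + (δ - dd) * u = δ * u := by ring
  constructor
  · have h1 := lad_cond L hwG hbw hwo hT hkf hw1 (pv := fun l => sn l b - φ)
      (fun l _ => by linarith) he hee2 hpos (H1.mono hee1 le_rfl)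
    rwa [e2] at h1
  · have h1 := lad_cond L hwG hbw hwo hT hkf hw1 (pv := fun l => sn l b - φ)
      (fun l _ => by linarith) he hee2 hpos (H2.mono hee1 le_rfl)
    rwa [e2] at h1

/-- `F1` in a subclass. -/
theorem f1_sub {S' : PCl m} (hs : ∀ (τ : ℝ) (J : ℕ) (F : Fam m J) (A : F.Ω → Prop),
    S'.St τ J F A → S.St τ J F A) {U U' : Type} {α β γ : ∀ J : ℕ, Fam m J → Type}
    {f : ∀ (J : ℕ) (F : Fam m J), F.Ω → α J F} {g : ∀ (J : ℕ) (F : Fam m J), F.Ω → β J F}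
    {y : ∀ (J : ℕ) (F : Fam m J), F.Ω → γ J F} {Q : Qt m U} {Q' : Qt m U'} {e η : ℝ}
    (H : F1 S f g y Q Q' e η) : F1 S' f g y Q Q' e η := fun K => (H K).sub hs

/-- **Far-dead in a subclass.** -/
theorem farA_sub {S' : PCl m} (hs : ∀ (τ : ℝ) (J : ℕ) (F : Fam m J) (A : F.Ω → Prop),
    S'.St τ J F A → S.St τ J F A) {w u T C φ' δ : ℝ} {K τ : ℕ}
    (H : FarA S c k K sn τ b w u T C φ' δ) : FarA S' c k K sn τ b w u T C φ' δ := by
  obtain ⟨e₁, he₁, H⟩ := H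
  exact ⟨e₁, he₁, fun e h1 h2 j h3 h4 => ⟨f1_sub hs (H e h1 h2 j h3 h4).1,
    f1_sub hs (H e h1 h2 j h3 h4).2⟩⟩

end Pool.FA6
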