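import Pool.Agent.H6.FA.Far
import Pool.Agent.H18.PN.Fds

/-!
# Far-dead over the labels of an early window, from `FdS`

`farA_fds`: `FarA` from the output of `FdS`, `pf l = L l t t`, `Nf l j = L l t t + kf q - j t`.
`farA_rec`: from `FdS` itself, in a subclass.
-/

set_option autoImplicit false

namespace Pool.FA6

open Finset Real MvPolynomial
open Pool.Agent.H49.Ent Pool.Agent.H32.Dense Pool.STK Pool.KA Pool.KSAT Pool.K2S Pool.PB Pool.GEN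
open Pool.S6C Pool.RCD Pool.LA91 Pool.OWN68 Pool.AJW Pool.PN18 Pool.V0R Pool.VA83 Pool.PKG
open Pool.AVG96 (jetQ)

/-- **`FarA` from the output of `FdS`.** -/
theorem farA_fds {r f : ℕ} {S : PCl (r + 2)} {c : ℕ → Fin (r + 2)} {L : ℕ → ℝ → ℝ → ℝ} {G : Set ℝ}
    {b o φ q t : ℝ} (Ld : LadR S c r f (fun l x => L l x x) G b o φ) (hq : 0 < q) (htG : t ∈ G)
    (hbt : b ≤ t) (hto : t ≤ o) {T kf C dd δ : ℝ} {J₀ τ : ℕ}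
    (hT : kf * q + 11 * (r + 1) * φ ≤ T * q) (hkf : 4 * φ ≤ kf * q) (ht1 : t + T * q ≤ 1)
    (hdd : dd < δ) {pf : ℕ → ℝ} {Nf : ℕ → ℕ → ℝ} (hpf : ∀ l, pf l = L l t t)
    (hNf : ∀ l j, Nf l j = L l t t + kf * q - (j : ℕ) * t)
    (H : ∃ e : ℝ, 0 < e ∧ ∀ j : ℕ, 1 ≤ j → j ≤ J₀ →
          F1 S (fun J F => ptr F J) (vg t) (fun _ F => F.T)
            (qJets (r + 2) c 0 r 1 (fun _ _ => t) (fun l _ => pf l) Nf)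
            (qJet (r + 2) ((range r).image c) (c r) j t (L r t t)
              (L r t t - j * t + C * q)) e (dd * q) ∧
          F1 S (fun J F => ptr F J) (vg t) (fun _ F => F.T)
            (qJets (r + 2) c 0 r 1 (fun _ _ => t) (fun l _ => pf l) Nf)
            (qJet (r + 2) ((range r).image c) (c r) j (t + -(τ : ℝ) * q)
              (L r (t + -(τ : ℝ) * q) (t + -(τ : ℝ) * q)) (L r t t - j * t + C * q)) e (dd * q) ∧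
          F1 S (fun J F => ptr F J) (vg t) (fun _ F => F.T)
            (qJets (r + 2) c 0 r 1 (fun _ _ => t) (fun l _ => pf l) Nf)
            (qJet (r + 2) ((range (r + 1)).image c) (c (r + 1)) j (t + -(τ : ℝ) * q)
              (L (r + 1) (t + -(τ : ℝ) * q) (t + -(τ : ℝ) * q))
              (L (r + 1) t t - j * t + C * q)) e (dd * q)) :
    FarA S c r J₀ (fun l x => L l x x) τ b t q T C φ δ := by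
  obtain rfl : pf = fun l => L l t t := funext hpf
  obtain rfl : Nf = fun l j => L l t t + kf * q - (j : ℕ) * t := by
    funext l j
    exact hNf l j
  refine farA_lad Ld hq htG hbt hto hT hkf ht1 hdd ?_
  obtain ⟨e, he, H⟩ := H
  refine ⟨e, he, fun j h1 h2 => ?_⟩
  obtain ⟨H1, -, H3⟩ := H j h1 h2
  have e1 : t + -(τ : ℝ) * q = t - τ * q := by ring
  rw [e1] at H3
  exact ⟨H1, H3⟩

/-- **`FarA` from `FdS`**: the record form. `T`: the far digits, chosen after `kf₀`; the ladder is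
asked of the subclass. -/
theorem farA_rec {r : ℕ} {h : ℝ} {Sl : ℕ → ℝ} {κ : ℕ → Kg} {ι Λ : Type} {Q : PropG (r + 2) ι}
    {Z : PropZ (r + 2) Λ} (HF : FdS r h Sl κ Q Z) :
  ∀ (J₀ : ℕ) (C : ℝ), ∀ al : ℝ, 0 < al → ∀ K₀ : ℝ, 0 < K₀ → ∀ S₀ : ℕ, 1 ≤ S₀ →
  ∃ (τ₀ : ℕ) (Kr : ℝ) (Nr : ℕ) (Ar Vr : ℕ → ℝ), 1 ≤ Kr ∧
  (∀ k < Nr, -Kr ≤ Vr k ∧ Vr k ≤ Ar k ∧ Ar k ≤ Kr) ∧
  ∀ τ : ℕ, τ₀ ≤ τ → ∀ S₂ : ℕ, S₀ ≤ S₂ → ∀ δ : ℝ, 0 < δ →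
  ∃ (lam : Λ) (T₀ : ℝ), 1 ≤ T₀ ∧ ∀ T : ℝ, T₀ ≤ T →
  ∃ (K₁ : ℝ) (Nv : ℕ) (Vv : ℕ → ℝ), (∀ j < Nv, -K₁ ≤ Vv j ∧ Vv j ≤ K₁) ∧ ∀ K' : ℝ, K₁ ≤ K' →
  ∃ ε₀ : ℝ, 0 < ε₀ ∧ ∀ ε : ℝ, 0 < ε → ε ≤ ε₀ →
  ∀ (S : PCl (r + 2)) (g₀ : ℝ → ℝ) (P : List (Fin (r + 2)) × Fin (r + 2) → ℝ → ℝ → ℝ)
    (θ : ℝ) (P₂ : ℕ → List (Fin (r + 2)) × Fin (r + 2) → ℝ → ℝ → ℝ) (θ₂ Eb e₂ : ℕ → ℝ)
    (c : ℕ → Fin (r + 2)) (Pt : ℝ → ℝ → ℝ) (rt : ℝ → ℝ) (L T' : ℕ → ℝ → ℝ → ℝ) (G : Set ℝ)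
    (g : ℝ), IsClosed G → g ∈ G → (∀ l < r + 2, HasDerivAt (fun x => L l x x) (Sl l) g) →
    Z lam S P θ c Pt rt L T' κ G g →
    ∃ (p : ℕ → ι) (M : ℕ) (B₀ B₁ : ℕ → ℝ),
    (∀ j < M, B₀ j < B₁ j) ∧ ∀ k₀ : ℕ → ℕ, (∀ j < M, Q (p j) (k₀ j) S P θ c Pt rt L T' κ G g) →
    ∃ q₁ : ℝ, 0 < q₁ ∧ ∀ (q t : ℝ) (x : ℕ → ℝ),
      q < q₁ → (∀ j < M, x j ∈ G ∧ t + B₀ j * q ≤ x j ∧ x j ≤ t + B₁ j * q ∧
        Q (p j) (k₀ j) S P θ c Pt rt L T' κ G (x j)) →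
      ∀ (N : ℕ) (A V : ℕ → ℝ) (N' : ℕ) (V' : ℕ → ℝ),
      RecG S al g₀ P θ P₂ θ₂ Eb e₂ c Pt rt h K₀ g L T' Sl κ G S₀ N A V S₂ N' V' K' ε q t →
      (∀ k < Nr, ∃ j < N, A j = Ar k ∧ V j = Vr k) → (∀ k < Nv, ∃ j < N', V' j = Vv k) →
      ∃ S' : PCl (r + 2), S'.Ne ∧
        (∀ (τ : ℝ) (J : ℕ) (F : Fam (r + 2) J) (A : F.Ω → Prop), S'.St τ J F A → S.St τ J F A) ∧
        ∀ (f : ℕ) (Gs : Set ℝ) (b o φ : ℝ), LadR S' c r f (fun l x => L l x x) Gs b o φ →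
          t ∈ Gs → b ≤ t → t ≤ o → 11 * (r + 1) * φ ≤ q →
          FarA S' c r J₀ (fun l x => L l x x) τ b t q T C φ δ := by
  intro J₀ C al hal K₀ hK₀ S₀ hS₀
  obtain ⟨Tn₀, Kr, Nr, Ar, Vr, hKr, hAr, H⟩ := HF J₀ C al hal K₀ hK₀ S₀ hS₀
  refine ⟨⌈Tn₀⌉₊, Kr, Nr, Ar, Vr, hKr, hAr, fun τ hτ S₂ hS₂ δ hδ => ?_⟩
  obtain ⟨lam, kf₀, φf, hφf, H⟩ := H τ ((Nat.le_ceil _).trans (by exact_mod_cast hτ)) S₂ hS₂ (δ / 2)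
    (half_pos hδ)
  refine ⟨lam, max 1 kf₀ + 1, by linarith [le_max_left 1 kf₀], fun T hT => ?_⟩
  obtain ⟨K₁, Nv, Vv, hVv, H⟩ := H (T - 1) (by linarith [le_max_right 1 kf₀])
  have hT2 : 1 ≤ T - 1 := by linarith [le_max_left 1 kf₀]
  refine ⟨max K₁ T, Nv, Vv, fun j hj => ?_, fun K' hK' => ?_⟩
  · obtain ⟨h1, h2⟩ := hVv j hj
    have h3 := le_max_left K₁ T
    exact ⟨by linarith, by linarith⟩
  obtain ⟨ε₀, hε₀, H⟩ := H K' ((le_max_left _ _).trans hK')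
  refine ⟨ε₀, hε₀, fun ε hε hεε S g₀ P θ P₂ θ₂ Eb e₂ c Pt rt L T' G g hG hg hL hZ => ?_⟩
  obtain ⟨p, M, B₀, B₁, hB, H⟩ := H ε hε hεε S g₀ P θ P₂ θ₂ Eb e₂ c Pt rt L T' G g hG hg hL hZ
  refine ⟨p, M, B₀, B₁, hB, fun k₀ hk₀ => ?_⟩
  obtain ⟨q₁, hq₁, H⟩ := H k₀ hk₀
  refine ⟨q₁, hq₁, fun q t x hqq hx N A V N' V' R hA hV => ?_⟩
  obtain ⟨S', hne, hs, H⟩ := H q t x hqq hx N A V N' V' R hA hV (fun l => L l t t)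
    (fun l j => L l t t + (T - 1) * q - (j : ℕ) * t)
    (fun l _ => ⟨by linarith [mul_pos hφf R.q0], le_rfl⟩) (fun _ _ _ _ => rfl)
  refine ⟨S', hne, hs, fun f Gs b o φ Ld htG hbt hto hφ => ?_⟩
  have hq := R.q0
  have hr0 : (0 : ℝ) ≤ r := Nat.cast_nonneg r
  have hφ0 := Ld.φ0
  have h1 : 11 * φ ≤ 11 * (r + 1) * φ := mul_le_mul_of_nonneg_right (by linarith) hφ0.le
  have h2 : q ≤ (T - 1) * q := le_mul_of_one_le_left hq.le hT2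
  have h3 : T * q ≤ K' * q := mul_le_mul_of_nonneg_right ((le_max_right _ _).trans hK') hq.le
  exact farA_fds Ld hq htG hbt hto (kf := T - 1) (dd := δ / 2) (by linarith) (by linarith)
    (by linarith [R.t1]) (by linarith) (fun _ => rfl) (fun _ _ => rfl) H

end Pool.FA6
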